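import Pool.Agent.Y333.DR.TruA
import Pool.Agent.TH563.UV.MainU
import Pool.Agent.TH563.UV.StepU
import Pool.Agent.TH563.UV.Prd
import Pool.Agent.W719.AX.Final
import Pool.Agent.W719.AX.Gex
import Pool.Agent.TH929.J29

/-!
# Project DR, task DR-TRU: the functions of the trees
-/

set_option autoImplicit false

namespace Pool.Agent.Y333.DR

open Finset Filter Topology Metric
open Pool.Agent.W711.HT hiding XX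
open Pool.Agent.Y481.DR
open Pool.Agent.TH563.UV
open scoped Real

/-- **Task DR-TRU.** -/
theorem tru : S_TRU := by
  obtain ⟨ρ, τ, κ₀, c, s, dl, hK₀⟩ := Pool.Agent.W719.AR.f_KER
  have hτ := hK₀.hτ.1
  have hρ := hK₀.hρ.1
  have hc := hK₀.hc
  have hκ0 : 0 < min κ₀ (8 * c * τ ^ 2) := lt_min hK₀.hκ.1 (by positivity)
  have hK : KD ρ τ (min κ₀ (8 * c * τ ^ 2)) c s dl := KD_mono hK₀ hκ0 (min_le_left _ _)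
  have hκ8 : min κ₀ (8 * c * τ ^ 2) ≤ 8 * c * τ ^ 2 := min_le_right _ _
  generalize min κ₀ (8 * c * τ ^ 2) = κ at *
  obtain ⟨ρ₂, τ₂, hρ₂, hτ₂, Ak, hAk⟩ :=
    Pool.Agent.W719.AX.f_KXC Pool.Agent.W719.AX.f_WIN ρ τ κ c s dl hK
  obtain ⟨ε₀, K, hε, hε1, hK0, hre, h1, h2⟩ := f_STEPU ρ τ κ c s dl hK ρ₂ τ₂ Ak hρ₂ hτ₂ hAk
  obtain ⟨b1, b2⟩ := Pool.Agent.TH929.stepb ρ τ κ c s dl hK ρ₂ τ₂ Ak hρ₂ hτ₂ hAk ε₀ hε hε1 hre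
  obtain ⟨h0, hp⟩ := f_PRU ρ τ κ c s dl hK ε₀ hε
  obtain ⟨h0x, hpx⟩ := Pool.Agent.W52.AX.prdx Pool.Agent.W303.AX.uxmul ρ₂ τ₂
  obtain ⟨C, hC⟩ := hK.sbd
  refine ⟨ρ, τ, κ, c, s, dl, hK, K, hK0, fun D => ?_⟩
  refine ⟨τ, D * (2 * |C| + ε₀) + 1, hτ, le_rfl, by positivity, fun t hB hD => ?_⟩
  obtain ⟨F, A, hG, hA, hcr⟩ := mainu_ind hK h0 hp h0x hpx h1 b1 t hB
  refine ⟨F, dg_of hK hε hε1 hκ8 hre hC hD hG, fun ψ hψ => ?_⟩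
  obtain ⟨p, hp1, hp2, hp3, hp4, hp5⟩ := hcr ψ (Rc_subU hρ hτ hψ)
  exact ⟨p, hp1, hp2, hp3, hp4.symm, hp5⟩

end Pool.Agent.Y333.DR
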