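import Pool.Agent.Y481.DR.Defs

/-!
# Project DR, task DR-TRU: the functions of the trees, the analytic part
-/

set_option autoImplicit false

namespace Pool.Agent.Y333.DR

open Finset Filter Topology Metric
open Pool.Agent.W711.HT hiding XX
open Pool.Agent.Y481.DR
open Pool.Agent.TH563.UV (GoodU)
open scoped Real

/-- the kernel data with a smaller `κ` -/
theorem KD_mono {ρ τ κ κ' c : ℝ} {s dl : ℂ → ℂ → ℂ} (h : KD ρ τ κ c s dl) (h0 : 0 < κ')
    (h1 : κ' ≤ κ) : KD ρ τ κ' c s dl := by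
  refine { h with hκ := ⟨h0, h1.trans h.hκ.2⟩, far := ?_, farg := ?_, farb := ?_ }
  · filter_upwards [h.far] with N hN x y hx hx' hy ψ' hψ'
    refine (hN x y hx hx' hy ψ' hψ').trans (Real.exp_le_exp.2 ?_)
    exact mul_le_mul_of_nonneg_left (by linarith) (Nat.cast_nonneg N)
  · filter_upwards [h.farg] with N hN x y x' y' hx hx1 hx2 hy hy'
    refine (hN x y x' y' hx hx1 hx2 hy hy').trans (Real.exp_le_exp.2 ?_)
    exact mul_le_mul_of_nonneg_left (by linarith) (Nat.cast_nonneg N)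
  · filter_upwards [h.farb] with N hN x y x' y' hx hx0 hx1 hx2 hy hy'
    refine (hN x y x' y' hx hx0 hx1 hx2 hy hy').trans (Real.exp_le_exp.2 ?_)
    exact mul_le_mul_of_nonneg_left (by linarith) (Nat.cast_nonneg N)

theorem isOpen_Rc' (a b : ℝ) : IsOpen (Rc a b) := by
  have h1 : IsOpen {z : ℂ | |z.re| < a} :=
    isOpen_lt (continuous_abs.comp Complex.continuous_re) continuous_const
  have h2 : IsOpen {z : ℂ | |z.im| < b} :=
    isOpen_lt (continuous_abs.comp Complex.continuous_im) continuous_const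
  exact h1.inter h2

/-- the real part along the real axis -/
theorem re_le {ρ τ κ ε₀ c : ℝ} {s : ℂ → ℂ → ℂ} (hc : 0 < c) (hρ : 0 < ρ) (hτ : 0 < τ)
    (hre : ∀ (t : ℕ) (F : ℂ → ℂ), 1 ≤ t → DifferentiableOn ℂ F (Rc (3 * ρ) (3 * τ)) →
      (∀ ψ ∈ Rc (3 * ρ) (3 * τ), F (-ψ) = F ψ) →
      (∀ ψ ∈ Rc (3 * ρ) (3 * τ), ‖F ψ - F 0 - t * (s 0 ψ - s 0 0)‖ ≤ t * ε₀) →
      ∀ x : ℝ, |x| ≤ ρ → (F x).re ≤ (F 0).re - c / 4 * x ^ 2)
    {t : ℕ} {X : ℕ → ℂ → ℂ} {F : ℂ → ℂ} (hG : GoodU ρ τ κ ε₀ s t X F) {x : ℝ} (hx : |x| ≤ ρ) :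
    (F x).re ≤ (F 0).re := by
  rcases Nat.eq_zero_or_pos t with h | h
  · have hm : ((x : ℝ) : ℂ) ∈ Rc (3 * ρ) (3 * τ) := by
      refine ⟨?_, ?_⟩
      · rw [Complex.ofReal_re]; linarith
      · rw [Complex.ofReal_im, abs_zero]; linarith
    have h1 := hG.Fcl _ hm
    rw [h, Nat.cast_zero, Nat.cast_zero, zero_mul, zero_mul, sub_zero] at h1
    have h2 : F x - F 0 = 0 := norm_le_zero_iff.1 h1
    rw [sub_eq_zero.1 h2]
  · have h1 := hre t F h hG.Fan hG.Fev hG.Fcl x hx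
    have h2 : 0 ≤ c / 4 * x ^ 2 := by positivity
    linarith

/-- subexponential growth of the normalised function -/
theorem gr_of {ρ τ κ ε₀ c : ℝ} {s : ℂ → ℂ → ℂ} (hc : 0 < c) (hρ : 0 < ρ) (hτ : 0 < τ)
    (hκ : 0 < κ)
    (hre : ∀ (t : ℕ) (F : ℂ → ℂ), 1 ≤ t → DifferentiableOn ℂ F (Rc (3 * ρ) (3 * τ)) →
      (∀ ψ ∈ Rc (3 * ρ) (3 * τ), F (-ψ) = F ψ) →
      (∀ ψ ∈ Rc (3 * ρ) (3 * τ), ‖F ψ - F 0 - t * (s 0 ψ - s 0 0)‖ ≤ t * ε₀) →
      ∀ x : ℝ, |x| ≤ ρ → (F x).re ≤ (F 0).re - c / 4 * x ^ 2)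
    {t : ℕ} {X : ℕ → ℂ → ℂ} {F : ℂ → ℂ} (hG : GoodU ρ τ κ ε₀ s t X F) {ε : ℝ} (hε : 0 < ε) :
    ∀ᶠ N : ℕ in atTop, ∀ ψ : ℂ, |ψ.re| ≤ π → |ψ.im| ≤ 1 / N →
      ‖X N ψ * Complex.exp (-(N * F 0))‖ ≤ Real.exp (N * ε) := by
  -- uniform continuity
  set Q : Set ℂ := Set.Icc (-ρ) ρ ×ℂ Set.Icc (-τ) τ with hQ
  have hQc : IsCompact Q := isCompact_Icc.reProdIm isCompact_Icc
  have hmem : ∀ z : ℂ, |z.re| ≤ ρ → |z.im| ≤ τ → z ∈ Q := by
    intro z h1 h2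
    rw [hQ, Complex.mem_reProdIm]
    exact ⟨abs_le.1 h1, abs_le.1 h2⟩
  have hQs : Q ⊆ Rc (3 * ρ) (3 * τ) := by
    intro z hz
    rw [hQ, Complex.mem_reProdIm] at hz
    have h1 := abs_le.2 hz.1
    have h2 := abs_le.2 hz.2
    exact ⟨by linarith, by linarith⟩
  have hu := hQc.uniformContinuousOn_of_continuous (hG.Fan.continuousOn.mono hQs)
  rw [Metric.uniformContinuousOn_iff] at hu
  obtain ⟨δ, hδ, hδu⟩ := hu (ε / 2) (by linarith)
  have hN1 : ∀ᶠ N : ℕ in atTop, (1 : ℝ) / N < min δ τ :=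
    tendsto_one_div_atTop_nhds_zero_nat.eventually (gt_mem_nhds (lt_min hδ hτ))
  filter_upwards [hG.gl1, hG.mw (ε / 2) (by linarith), hN1] with N g1 g2 g3 ψ hψ1 hψ2
  have hNn : (0 : ℝ) ≤ N := Nat.cast_nonneg N
  have hre0 : (-((N : ℂ) * F 0)).re = -(N * (F 0).re) := by
    rw [Complex.neg_re]
    congr 1
    rw [show ((N : ℂ)) = ((N : ℝ) : ℂ) by push_cast; rfl, Complex.re_ofReal_mul]
  rw [norm_mul, Complex.norm_exp, hre0]
  have key : ‖X N ψ‖ ≤ Real.exp (N * ((F 0).re + ε)) := by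
    rcases le_or_gt ρ |ψ.re| with h | h
    · have h1 := g1 ψ.re ψ.im h hψ1 hψ2
      rw [Complex.re_add_im] at h1
      refine h1.trans (Real.exp_le_exp.2 (mul_le_mul_of_nonneg_left ?_ hNn))
      have : 0 ≤ (t : ℝ) * (κ / 2) := by positivity
      linarith
    · have him : |ψ.im| < min δ τ := lt_of_le_of_lt hψ2 g3
      have him1 : |ψ.im| < δ := lt_of_lt_of_le him (min_le_left _ _)
      have him2 : |ψ.im| < τ := lt_of_lt_of_le him (min_le_right _ _)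
      have hm2 : ψ ∈ Rc (2 * ρ) (2 * τ) := ⟨by linarith, by linarith⟩
      obtain ⟨hne, hlog⟩ := g2 ψ hm2
      have hd : dist (F ψ) (F ((ψ.re : ℝ) : ℂ)) < ε / 2 := by
        refine hδu ψ (hmem ψ h.le him2.le) _ (hmem _ (by rw [Complex.ofReal_re]; exact h.le)
          (by rw [Complex.ofReal_im, abs_zero]; exact hτ.le)) ?_
        rw [dist_eq_norm]
        have : ψ - ((ψ.re : ℝ) : ℂ) = ((ψ.im : ℝ) : ℂ) * Complex.I := by
          have := Complex.re_add_im ψ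
          linear_combination -this
        rw [this, norm_mul, Complex.norm_I, mul_one, Complex.norm_real]
        exact him1
      have h3 : (F ψ).re ≤ (F ((ψ.re : ℝ) : ℂ)).re + ε / 2 := by
        have h4 := Complex.abs_re_le_norm (F ψ - F ((ψ.re : ℝ) : ℂ))
        rw [← dist_eq_norm, Complex.sub_re] at h4
        have := (abs_le.1 h4).2
        linarith
      have h5 := re_le hc hρ hτ hre hG h.le
      have h6 : Real.log ‖X N ψ‖ ≤ N * ((F 0).re + ε) := by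
        have h7 := (abs_le.1 hlog).2
        have h8 : (N : ℝ) * (F ψ).re ≤ N * ((F 0).re + ε / 2) :=
          mul_le_mul_of_nonneg_left (by linarith) hNn
        nlinarith
      have h9 : 0 < ‖X N ψ‖ := norm_pos_iff.2 hne
      rw [← Real.exp_log h9]
      exact Real.exp_le_exp.2 h6
  calc ‖X N ψ‖ * Real.exp (-(N * (F 0).re))
      ≤ Real.exp (N * ((F 0).re + ε)) * Real.exp (-(N * (F 0).re)) :=
        mul_le_mul_of_nonneg_right key (Real.exp_pos _).le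
    _ = Real.exp (N * ε) := by
        rw [← Real.exp_add]
        congr 1
        ring

/-- concavity -/
theorem conc_of {ρ τ κ c ε₀ : ℝ} {s dl : ℂ → ℂ → ℂ} (hK : KD ρ τ κ c s dl)
    (hε1 : ε₀ ≤ κ / 16) (hκ : κ ≤ 8 * c * τ ^ 2)
    {t : ℕ} {X : ℕ → ℂ → ℂ} {F : ℂ → ℂ} (hG : GoodU ρ τ κ ε₀ s t X F) {ψ : ℂ}
    (hψ : ψ ∈ Rc τ τ) : (deriv (deriv fun z => F z - F 0) ψ).re ≤ 0 := by
  have hρ := hK.hρ.1
  have hτ := hK.hτ.1
  have hτρ := hK.hτ.2
  set U : Set ℂ := Rc (3 * ρ) (3 * τ) with hU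
  have hUo : IsOpen U := isOpen_Rc' _ _
  have m0 : (0 : ℂ) ∈ U := by
    refine ⟨?_, ?_⟩
    · rw [Complex.zero_re, abs_zero]; linarith
    · rw [Complex.zero_im, abs_zero]; linarith
  have hψU : ψ ∈ U := ⟨by linarith [hψ.1], by linarith [hψ.2]⟩
  have hball : closedBall ψ τ ⊆ U := by
    intro z hz
    rw [mem_closedBall, dist_eq_norm] at hz
    have h1 := (Complex.abs_re_le_norm (z - ψ)).trans hz
    have h2 := (Complex.abs_im_le_norm (z - ψ)).trans hz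
    rw [Complex.sub_re, abs_le] at h1
    rw [Complex.sub_im, abs_le] at h2
    have h3 := abs_lt.1 hψ.1
    have h4 := abs_lt.1 hψ.2
    exact ⟨abs_lt.2 ⟨by linarith [h1.1, h3.1], by linarith [h1.2, h3.2]⟩,
      abs_lt.2 ⟨by linarith [h2.1, h4.1], by linarith [h2.2, h4.2]⟩⟩
  -- the function `s 0`
  have hs : DifferentiableOn ℂ (fun w => s 0 w) U := by
    have h5 : DifferentiableOn ℂ (fun w : ℂ => ((0 : ℂ), w)) U :=
      ((differentiable_const (0 : ℂ)).prodMk differentiable_id).differentiableOn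
    exact hK.san.comp h5 (fun w hw => ⟨m0, hw⟩)
  set g : ℂ → ℂ := fun z => F z - F 0 - t * (s 0 z - s 0 0) with hg
  have hgd : DifferentiableOn ℂ g U :=
    (hG.Fan.sub_const _).sub ((hs.sub_const _).const_mul _)
  have hg2 : ‖deriv (deriv g) ψ‖ ≤ 2 * (t * ε₀) / τ ^ 2 := by
    have h := Complex.norm_iteratedDeriv_le_of_forall_mem_sphere_norm_le 2 hτ
      (hgd.diffContOnCl_ball hball) (C := t * ε₀) (fun z hz => hG.Fcl z
        (hball (sphere_subset_closedBall hz)))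
    have e : iteratedDeriv 2 g ψ = deriv (deriv g) ψ := by
      rw [iteratedDeriv_succ, iteratedDeriv_one]
    rw [e] at h
    simpa using h
  have e1 : (deriv fun z => F z - F 0) =ᶠ[𝓝 ψ] fun z => deriv g z + t * deriv (fun w => s 0 w) z := by
    filter_upwards [hUo.mem_nhds hψU] with z hz
    have hga : DifferentiableAt ℂ g z := hgd.differentiableAt (hUo.mem_nhds hz)
    have hsa : DifferentiableAt ℂ (fun w => s 0 w) z := hs.differentiableAt (hUo.mem_nhds hz)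
    have e2 : (fun z => F z - F 0) = fun z => g z + t * (s 0 z - s 0 0) := by
      funext z
      rw [hg]
      ring
    rw [e2]
    exact (hga.hasDerivAt.add ((hsa.hasDerivAt.sub_const _).const_mul _)).deriv
  have hga2 : DifferentiableAt ℂ (deriv g) ψ := (hgd.deriv hUo).differentiableAt (hUo.mem_nhds hψU)
  have hsa2 : DifferentiableAt ℂ (deriv fun w => s 0 w) ψ :=
    (hs.deriv hUo).differentiableAt (hUo.mem_nhds hψU)
  have e3 : deriv (deriv fun z => F z - F 0) ψ =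
      deriv (deriv g) ψ + t * deriv (deriv fun w => s 0 w) ψ := by
    rw [e1.deriv_eq]
    exact (hga2.hasDerivAt.add (hsa2.hasDerivAt.const_mul _)).deriv
  have e4 : deriv (deriv fun w => s 0 w) ψ = deriv (deriv fun w => s w 0) ψ := by
    have h1 : (fun w => s 0 w) =ᶠ[𝓝 ψ] fun w => s w 0 := by
      filter_upwards [hUo.mem_nhds hψU] with z hz
      exact hK.sym 0 m0 z hz
    exact h1.deriv.deriv_eq
  have h6 := hK.conc ψ hψU 0 m0
  rw [e3, e4, Complex.add_re]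
  have h7 : (((t : ℕ) : ℂ) * deriv (deriv fun w => s w 0) ψ).re =
      t * (deriv (deriv fun w => s w 0) ψ).re := by
    rw [show ((t : ℂ)) = ((t : ℝ) : ℂ) by push_cast; rfl, Complex.re_ofReal_mul]
  rw [h7]
  have h8 : (deriv (deriv g) ψ).re ≤ 2 * (t * ε₀) / τ ^ 2 := (Complex.re_le_norm _).trans hg2
  have ht : (0 : ℝ) ≤ t := Nat.cast_nonneg t
  have h9 : (t : ℝ) * (deriv (deriv fun w => s w 0) ψ).re ≤ t * (-c) :=
    mul_le_mul_of_nonneg_left h6 ht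
  have h10 : 2 * (t * ε₀) / τ ^ 2 ≤ t * c := by
    rw [div_le_iff₀ (by positivity)]
    have : 2 * ε₀ ≤ c * τ ^ 2 := by linarith
    nlinarith
  linarith

/-- **The normalised function is of the class `DG`.** -/
theorem dg_of {ρ τ κ c ε₀ : ℝ} {s dl : ℂ → ℂ → ℂ} (hK : KD ρ τ κ c s dl) (hε : 0 < ε₀)
    (hε1 : ε₀ ≤ κ / 16) (hκ : κ ≤ 8 * c * τ ^ 2)
    (hre : ∀ (t : ℕ) (F : ℂ → ℂ), 1 ≤ t → DifferentiableOn ℂ F (Rc (3 * ρ) (3 * τ)) →
      (∀ ψ ∈ Rc (3 * ρ) (3 * τ), F (-ψ) = F ψ) →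
      (∀ ψ ∈ Rc (3 * ρ) (3 * τ), ‖F ψ - F 0 - t * (s 0 ψ - s 0 0)‖ ≤ t * ε₀) →
      ∀ x : ℝ, |x| ≤ ρ → (F x).re ≤ (F 0).re - c / 4 * x ^ 2)
    {C : ℝ} (hC : ∀ ψ ∈ Rc (3 * ρ) (3 * τ), ∀ ψ' ∈ Rc (3 * ρ) (3 * τ), ‖s ψ ψ'‖ ≤ C)
    {D t : ℕ} (ht : t ≤ D) {X : ℕ → ℂ → ℂ} {F : ℂ → ℂ} (hG : GoodU ρ τ κ ε₀ s t X F) :
    DG τ (D * (2 * |C| + ε₀) + 1) (fun N ψ => X N ψ * Complex.exp (-(N * F 0)))
      (fun ψ => F ψ - F 0) := by
  have hρ := hK.hρ.1
  have hτ := hK.hτ.1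
  have hτρ := hK.hτ.2
  have m0 : (0 : ℂ) ∈ Rc (3 * ρ) (3 * τ) := by
    refine ⟨?_, ?_⟩
    · rw [Complex.zero_re, abs_zero]; linarith
    · rw [Complex.zero_im, abs_zero]; linarith
  have hsub : Rc τ τ ⊆ Rc (3 * ρ) (3 * τ) := fun z hz => ⟨by linarith [hz.1], by linarith [hz.2]⟩
  have hsub2 : Rc τ τ ⊆ Rc (2 * ρ) (2 * τ) := fun z hz => ⟨by linarith [hz.1], by linarith [hz.2]⟩
  refine ⟨⟨?_, ?_, ?_⟩, ?_, ?_, ?_, ?_, ?_, ?_⟩
  · intro N
    exact (hG.an N).mul_const _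
  · intro N ψ
    show X N (-ψ) * _ = X N ψ * _
    rw [hG.ev]
  · intro ε hε'
    exact gr_of hK.hc hρ hτ hK.hκ.1 hre hG hε'
  · exact sub_self _
  · exact (hG.Fan.mono hsub).sub_const _
  · intro ψ hψ
    show F (-ψ) - F 0 = F ψ - F 0
    rw [hG.Fev ψ (hsub hψ)]
  · intro ψ hψ
    show ‖F ψ - F 0‖ ≤ _
    have h1 := hG.Fcl ψ (hsub hψ)
    have h2 : F ψ - F 0 = (F ψ - F 0 - t * (s 0 ψ - s 0 0)) + t * (s 0 ψ - s 0 0) := by ring
    have h3 : ‖s 0 ψ - s 0 0‖ ≤ 2 * |C| := by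
      refine (norm_sub_le _ _).trans ?_
      have a1 := (hC 0 m0 ψ (hsub hψ)).trans (le_abs_self C)
      have a2 := (hC 0 m0 0 m0).trans (le_abs_self C)
      linarith
    have h4 : ‖(t : ℂ) * (s 0 ψ - s 0 0)‖ ≤ t * (2 * |C|) := by
      rw [norm_mul, Complex.norm_natCast]
      exact mul_le_mul_of_nonneg_left h3 (Nat.cast_nonneg t)
    have h5 : (t : ℝ) ≤ D := by exact_mod_cast ht
    rw [h2]
    refine (norm_add_le _ _).trans ?_
    have h6 : (t : ℝ) * (2 * |C| + ε₀) ≤ D * (2 * |C| + ε₀) :=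
      mul_le_mul_of_nonneg_right h5 (by positivity)
    linarith
  · intro ψ hψ
    exact conc_of hK hε1 hκ hG hψ
  · intro ε hε'
    filter_upwards [hG.mw ε hε'] with N hN z hz
    obtain ⟨h1, h2⟩ := hN z (hsub2 hz)
    refine ⟨mul_ne_zero h1 (Complex.exp_ne_zero _), ?_⟩
    have hre0 : (-((N : ℂ) * F 0)).re = -(N * (F 0).re) := by
      rw [Complex.neg_re]
      congr 1
      rw [show ((N : ℂ)) = ((N : ℝ) : ℂ) by push_cast; rfl, Complex.re_ofReal_mul]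
    rw [norm_mul, Complex.norm_exp, hre0, Real.log_mul (norm_ne_zero_iff.2 h1)
      (Real.exp_pos _).ne', Real.log_exp]
    have e : Real.log ‖X N z‖ + -(N * (F 0).re) - N * (F z - F 0).re =
        Real.log ‖X N z‖ - N * (F z).re := by
      rw [Complex.sub_re]
      ring
    rw [e]
    exact h2

end Pool.Agent.Y333.DR
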